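import Pool.Agent.Lib.MP_c618e1_lc.Quot

universe u

namespace Pool.Agent.Results.MP_c618e1_lc.DiscreteInitial

open Pool.Agent.Lib.MP_c618e1_lc Pool.Agent.Lib.MP_c618e1_lc.No

/-- **Answer to Q1 (yes).** Every discrete initial subgroup `G` of the surreal numbers is isomorphic,
as an ordered group, to an initial subgroup of the surreal numbers which consists of omnific
integers. -/
theorem result (G : AddSubgroup No.{u}) (hG : IsInitial (G : Set No.{u}))
    (hdisc : ∃ e ∈ G, 0 < e ∧ ∀ x ∈ G, 0 < x → e ≤ x) :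
    ∃ H : AddSubgroup No.{u}, IsInitial (H : Set No.{u}) ∧ (∀ x ∈ H, IsOmnific x) ∧
      ∃ f : G ≃+ H, ∀ x y : G, x < y ↔ f x < f y := by
  obtain ⟨e, he, he0, hmin⟩ := hdisc
  have hS := hasMid_rep hG he he0 hmin
  let R := repGroup hG he he0 hmin
  have hR : ∀ x : R, Rep G e (x : No.{u}) := fun x => x.2
  -- the compression as a homomorphism
  let ψ : R →+ No.{u} := AddMonoidHom.mk' (fun x => psi {x | Rep G e x} (x : No.{u}))
    (fun x y => (psi_add hG he he0 hmin x y (hR x) (hR y)).symm)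
  -- the map to the omnific integers
  let Φ : R × ℤ →+ No.{u} := AddMonoidHom.mk' (fun p => E (ψ p.1) p.2) (fun p q => by
    change E (ψ (p.1 + q.1)) (p.2 + q.2) = _
    rw [map_add, E_add])
  -- the decomposition of `G`
  let D : R × ℤ →+ G := AddMonoidHom.mk' (fun p => ⟨(p.1 : No.{u}) + p.2 • e,
      G.add_mem (hR p.1).1 (G.zsmul_mem he p.2)⟩) (fun p q => by
    apply Subtype.ext
    change ((p.1 + q.1 : R) : No.{u}) + (p.2 + q.2) • e =
      ((p.1 : No.{u}) + p.2 • e) + ((q.1 : No.{u}) + q.2 • e)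
    rw [AddSubgroup.coe_add, add_zsmul]
    abel)
  have hDlt : ∀ p q : R × ℤ, (p.1 < q.1 ∨ p.1 = q.1 ∧ p.2 < q.2) → D p < D q := by
    rintro ⟨x, n⟩ ⟨y, m⟩ (h | ⟨h1, h2⟩)
    · change (x : No.{u}) + n • e < (y : No.{u}) + m • e
      have h3 := Rep.lt_of_lt he he0 hmin (hR x) (hR y) h (n - m)
      rw [sub_zsmul, ← add_assoc, ← sub_eq_add_neg, sub_lt_iff_lt_add] at h3
      exact h3
    · change x = y at h1
      subst h1
      change (x : No.{u}) + n • e < (x : No.{u}) + m • e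
      refine add_lt_add_left' ?_ _
      have h3 : m • e = n • e + (m - n) • e := by rw [sub_zsmul]; abel
      rw [h3]
      refine lt_add_of_pos_right _ ?_
      have h4 : (0 : No.{u}) < (1 : ℤ) • e := by rw [one_zsmul]; exact he0
      change n < m at h2
      exact h4.trans_le (zsmul_le_zsmul_left he0.le (by omega))
  have hΦlt : ∀ p q : R × ℤ, (p.1 < q.1 ∨ p.1 = q.1 ∧ p.2 < q.2) → Φ p < Φ q := by
    rintro ⟨x, n⟩ ⟨y, m⟩ (h | ⟨h1, h2⟩)
    · exact E_lt_of_lt (psi_lt hS (hR x) (hR y) h) n m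
    · change x = y at h1
      subst h1
      exact E_lt_same h2
  have htri : ∀ p q : R × ℤ, (p.1 < q.1 ∨ p.1 = q.1 ∧ p.2 < q.2) ∨ p = q ∨
      (q.1 < p.1 ∨ q.1 = p.1 ∧ q.2 < p.2) := by
    rintro ⟨x, n⟩ ⟨y, m⟩
    rcases lt_trichotomy x y with h | h | h
    · exact Or.inl (Or.inl h)
    · subst h
      rcases lt_trichotomy n m with h' | h' | h'
      · exact Or.inl (Or.inr ⟨rfl, h'⟩)
      · subst h'; exact Or.inr (Or.inl rfl)
      · exact Or.inr (Or.inr (Or.inr ⟨rfl, h'⟩))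
    · exact Or.inr (Or.inr (Or.inl h))
  have hiff : ∀ p q : R × ℤ, D p < D q ↔ Φ p < Φ q := by
    intro p q
    rcases htri p q with h | h | h
    · exact ⟨fun _ => hΦlt p q h, fun _ => hDlt p q h⟩
    · rw [h]; simp
    · exact ⟨fun h' => absurd h' (not_lt.2 (hDlt q p h).le),
        fun h' => absurd h' (not_lt.2 (hΦlt q p h).le)⟩
  have hDinj : Function.Injective D := by
    intro p q hpq
    rcases htri p q with h | h | h
    · exact absurd hpq (hDlt p q h).ne
    · exact h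
    · exact absurd hpq (hDlt q p h).ne'
  have hΦinj : Function.Injective Φ := by
    intro p q hpq
    rcases htri p q with h | h | h
    · exact absurd hpq (hΦlt p q h).ne
    · exact h
    · exact absurd hpq (hΦlt q p h).ne'
  have hDsurj : Function.Surjective D := by
    rintro ⟨x, hx⟩
    obtain ⟨k, hk, -⟩ := exists_rep hG he he0 hmin hx
    refine ⟨(⟨x + k • e, hk⟩, -k), ?_⟩
    apply Subtype.ext
    change (x + k • e) + (-k) • e = x
    rw [neg_zsmul, add_assoc, add_neg_cancel, add_zero]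
  let eD : R × ℤ ≃+ G := AddEquiv.ofBijective D ⟨hDinj, hDsurj⟩
  let eΦ : R × ℤ ≃+ Φ.range := AddEquiv.ofBijective Φ.rangeRestrict
    ⟨fun p q h => hΦinj (congrArg Subtype.val h), Φ.rangeRestrict_surjective⟩
  refine ⟨Φ.range, ?_, ?_, eD.symm.trans eΦ, ?_⟩
  · rintro _ ⟨⟨x, n⟩, rfl⟩ z hz
    have hz' : Simpler z (E (ψ x) n) := hz
    rcases simpler_E_cases hz' with ⟨k, rfl, -⟩ | ⟨v, hv, -, j, rfl⟩ | ⟨v, hv, -, j, rfl⟩
    · exact ⟨(x, k), rfl⟩
    · obtain ⟨a, haS, -, rfl⟩ := exists_of_simpler_psi hS (hR x) hv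
      exact ⟨(⟨a, haS⟩, (j : ℤ)), rfl⟩
    · obtain ⟨a, haS, -, rfl⟩ := exists_of_simpler_psi hS (hR x) hv
      exact ⟨(⟨a, haS⟩, -(j : ℤ)), rfl⟩
  · rintro _ ⟨⟨x, n⟩, rfl⟩
    exact isOmnific_E _ _
  · intro x y
    have h := hiff (eD.symm x) (eD.symm y)
    have hx : D (eD.symm x) = x := eD.apply_symm_apply x
    have hy : D (eD.symm y) = y := eD.apply_symm_apply y
    rw [hx, hy] at h
    exact h

end Pool.Agent.Results.MP_c618e1_lc.DiscreteInitial
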